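import Pool.Agent.TH104.CF.G

/-!
# The Havet-Yu conjecture for claw-free graphs and `p` a little more than half the chromatic number

Proof.  (1) A claw-free graph `G` with a proper colouring with `k` colours can be divided into two
parts, each with a proper colouring with `k / 2 + o(D)` colours, such that every vertex has at most
half of its neighbours, up to `o(D)`, in each part: pair the colours; the subgraph formed by two
paired colours has maximum degree two, so its components are paths and cycles; a sparse random set
meets all the long ones (local lemma) and gets new colours, and in every remaining component one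
chooses at random which of the two colours goes to the first part (local lemma again, now the
number of components which contain neighbours of a given vertex is at most `D` and the components
have at most `2 D` vertices).
(2) By repeating this one obtains a partition into `2 m` types, `m` a large constant, in which every
vertex has at most `w`, about `D / (2 m)`, neighbours in every type and the types are coloured with
`k'`, about `k / (2 m)`, colours.  The vertices of the `m` low types get the `m k'` smallest labels,
those of the `m` high types the `m k'` largest labels, and the edges between two given types get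
labels in an interval of length `w + 1` (Vizing); these intervals are placed by a modified Latin
square.
-/

set_option autoImplicit false

namespace Pool.Agent.Results.MP_b8729f_co.ClawFree

/-- `TotalLabeling G p l`: the graph `G` has a `(p,1)`-total labeling of span `l`, that is, labels
`0, …, l` for the vertices (`fV`) and the edges (`fE`) such that adjacent vertices get different
labels, edges sharing an endpoint get different labels, and the labels of a vertex and of an
incident edge differ by at least `p`. -/
def TotalLabeling {V : Type} (G : SimpleGraph V) (p l : ℕ) : Prop :=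
  ∃ (fV : V → ℕ) (fE : Sym2 V → ℕ),
    (∀ v, fV v ≤ l) ∧ (∀ e ∈ G.edgeSet, fE e ≤ l) ∧
    (∀ u v, G.Adj u v → fV u ≠ fV v) ∧
    (∀ u v w, G.Adj u v → G.Adj u w → v ≠ w → fE s(u, v) ≠ fE s(u, w)) ∧
    (∀ u v, G.Adj u v → (p : ℤ) ≤ |(fV u : ℤ) - (fE s(u, v) : ℤ)|)

/-- `IsClawFree G`: no vertex of `G` has three pairwise nonadjacent neighbours. -/
def IsClawFree {V : Type} (G : SimpleGraph V) : Prop :=
  ∀ v a b c, G.Adj v a → G.Adj v b → G.Adj v c → a ≠ b → a ≠ c → b ≠ c →
    G.Adj a b ∨ G.Adj a c ∨ G.Adj b c

/-- For every `ε > 0` there is `D₀` such that for all `D ≥ D₀`, all `k ≤ (1 - ε) D` and all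
`p ≥ (k + ε D) / 2`, every finite claw-free graph with all degrees at most `D` and with a proper
vertex colouring with `k` colours has a `(p,1)`-total labeling of span `D + 2 p - 1`. -/
theorem result (ε : ℝ) (hε : 0 < ε) : ∃ D₀ : ℕ, ∀ (V : Type) [Fintype V]
    (G : SimpleGraph V) (D k p : ℕ), D₀ ≤ D → (∀ v, (G.neighborSet v).ncard ≤ D) →
    IsClawFree G → G.Colorable k → (k : ℝ) ≤ (1 - ε) * D → (k + ε * D) / 2 ≤ (p : ℝ) →
    TotalLabeling G p (D + 2 * p - 1) := by
  classical
  obtain ⟨D₀, h⟩ := Pool.Agent.TH104.CF.cf_main ε hε
  refine ⟨D₀, ?_⟩
  intro V _ G D k p h1 h2 h3 h4 h5 h6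
  refine h V G D k p h1 ?_ h3 ?_ h5 (by linarith)
  · intro v
    have := h2 v
    rwa [Set.ncard_eq_toFinset_card', ← SimpleGraph.neighborFinset_def,
      SimpleGraph.card_neighborFinset_eq_degree] at this
  · obtain ⟨c⟩ := h4
    exact ⟨fun v => (c v : ℕ), fun v => (c v).2, fun u v huv h => c.valid huv (Fin.ext h)⟩

end Pool.Agent.Results.MP_b8729f_co.ClawFree
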