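import Pool.Agent.TH104.HY.G

/-!
# The Havet-Yu conjecture for degenerate graphs and `p` a little more than half the degeneracy

Proof.  The vertices are distributed at random into `2 m` types, `m` low ones and `m` high ones,
such that every vertex has at most `w` neighbours in every type and the graph inside every type can
be coloured with `k` colours, where `w` is close to `D / (2 m)` and `k` is close to `s / (2 m)`
(local lemma, and greedy colouring along a degeneracy order).  The vertices of the low types get
the `m k` smallest labels and those of the high types the `m k` largest labels.  The edges between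
two given types get labels in an interval of length `w + 1` (Vizing), and these intervals are
placed by a modified Latin square which leaves enough room at both ends.
-/

set_option autoImplicit false

namespace Pool.Agent.Results.MP_b8729f_co.DegenerateGraphs

/-- `TotalLabeling G p l`: the graph `G` has a `(p,1)`-total labeling of span `l`, that is, labels
`0, …, l` for the vertices (`fV`) and the edges (`fE`) such that adjacent vertices get different
labels, edges sharing an endpoint get different labels, and the labels of a vertex and of an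
incident edge differ by at least `p`. -/
def TotalLabeling {V : Type} (G : SimpleGraph V) (p l : ℕ) : Prop :=
  ∃ (fV : V → ℕ) (fE : Sym2 V → ℕ),
    (∀ v, fV v ≤ l) ∧ (∀ e ∈ G.edgeSet, fE e ≤ l) ∧
    (∀ u v, G.Adj u v → fV u ≠ fV v) ∧
    (∀ u v w, G.Adj u v → G.Adj u w → v ≠ w → fE s(u, v) ≠ fE s(u, w)) ∧
    (∀ u v, G.Adj u v → (p : ℤ) ≤ |(fV u : ℤ) - (fE s(u, v) : ℤ)|)

/-- `Degenerate G s`: the graph `G` is `s`-degenerate, that is, every nonempty set `X` of vertices
contains a vertex with at most `s` neighbours in `X`. -/
def Degenerate {V : Type} (G : SimpleGraph V) (s : ℕ) : Prop :=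
  ∀ X : Set V, X.Nonempty → ∃ v ∈ X, {u : V | u ∈ X ∧ G.Adj v u}.ncard ≤ s

/-- There is a real number `C` such that for all `D ≥ C`, all `s ≤ D - C D^(5/6) (log D)^(1/6)` and
all `p ≥ s / 2 + C D^(2/3) (log D)^(1/3)`, every finite simple `s`-degenerate graph with all
degrees at most `D` has a `(p,1)`-total labeling of span `D + 2 p - 1`. -/
theorem result : ∃ C : ℝ, ∀ (V : Type) [Fintype V] (G : SimpleGraph V) (D s p : ℕ),
    C ≤ D → (∀ v, (G.neighborSet v).ncard ≤ D) → Degenerate G s →
    (s : ℝ) + C * ((D : ℝ) ^ (5 / 6 : ℝ) * Real.log D ^ (1 / 6 : ℝ)) ≤ D →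
    (s : ℝ) / 2 + C * ((D : ℝ) ^ (2 / 3 : ℝ) * Real.log D ^ (1 / 3 : ℝ)) ≤ p →
    TotalLabeling G p (D + 2 * p - 1) := by
  classical
  obtain ⟨C, h⟩ := Pool.Agent.TH104.HY.unif_main
  refine ⟨C, ?_⟩
  intro V _ G D s p h1 h2 h3 h4 h5
  refine h V G D s p h1 ?_ ?_ h4 h5
  · intro v
    have := h2 v
    rwa [Set.ncard_eq_toFinset_card', ← SimpleGraph.neighborFinset_def,
      SimpleGraph.card_neighborFinset_eq_degree] at this
  · intro X hX
    obtain ⟨v, hv, hc⟩ := h3 (X : Set V) (by exact_mod_cast hX)
    refine ⟨v, by exact_mod_cast hv, Finset.univ.filter (fun u => u ∈ X ∧ G.Adj v u), ?_, ?_⟩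
    · intro u hu huv
      simp [hu, huv]
    · rw [← Set.ncard_coe_finset]
      simpa using hc

end Pool.Agent.Results.MP_b8729f_co.DegenerateGraphs
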