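import Pool.Agent.TH104.LS.F

/-!
# The Havet-Yu conjecture for graphs with sparse neighbourhoods and `p` less than half the degree

Proof.  The vertices are distributed at random into `2 m` types, `m` low ones and `m` high ones,
and get at random one of `Q ≈ D / (4 m)` temporary colours; a vertex keeps its colour if no
neighbour has the same type and colour.  If the neighbourhood of a vertex `v` contains many
nonadjacent pairs, then in every type a positive proportion of the colours is kept by two
neighbours of `v` (the number of colours seen on exactly two neighbours, which are not adjacent, is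
concentrated by McDiarmid's inequality, and the events that such colours are lost are negatively
correlated).  By the local lemma all the types can be coloured greedily with
`k = (1 - ε) D / (2 m)` colours.  The vertices of the low types get the `m k` smallest labels,
those of the high types the `m k` largest labels, and the edges between two given types get labels
in an interval of length `w + 1`, where `w ≈ D / (2 m)` is the maximum number of neighbours of a
vertex in a type; these intervals are placed by a modified Latin square.
-/

set_option autoImplicit false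

namespace Pool.Agent.Results.MP_b8729f_co.LocallySparse

/-- `TotalLabeling G p l`: the graph `G` has a `(p,1)`-total labeling of span `l`, that is, labels
`0, …, l` for the vertices (`fV`) and the edges (`fE`) such that adjacent vertices get different
labels, edges sharing an endpoint get different labels, and the labels of a vertex and of an
incident edge differ by at least `p`. -/
def TotalLabeling {V : Type} (G : SimpleGraph V) (p l : ℕ) : Prop :=
  ∃ (fV : V → ℕ) (fE : Sym2 V → ℕ),
    (∀ v, fV v ≤ l) ∧ (∀ e ∈ G.edgeSet, fE e ≤ l) ∧
    (∀ u v, G.Adj u v → fV u ≠ fV v) ∧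
    (∀ u v w, G.Adj u v → G.Adj u w → v ≠ w → fE s(u, v) ≠ fE s(u, w)) ∧
    (∀ u v, G.Adj u v → (p : ℤ) ≤ |(fV u : ℤ) - (fE s(u, v) : ℤ)|)

/-- For every `0 < δ ≤ 1` there is `D₀` such that for all `D ≥ D₀` and all
`p ≥ (1/2 - δ/2^22) D`, every finite graph with all degrees at most `D` in which, for every vertex
`v`, there are at most `(1 - δ) D^2` ordered pairs `(a, b)` of adjacent neighbours of `v` (that is,
the neighbourhood of `v` spans at most `(1 - δ) D^2 / 2` edges) has a `(p,1)`-total labeling of
span `D + 2 p - 1`. -/
theorem result (δ : ℝ) (hδ : 0 < δ) (hδ1 : δ ≤ 1) : ∃ D₀ : ℕ, ∀ (V : Type) [Fintype V]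
    (G : SimpleGraph V) (D p : ℕ), D₀ ≤ D → (∀ v, (G.neighborSet v).ncard ≤ D) →
    (∀ v, ({a : V × V | G.Adj v a.1 ∧ G.Adj v a.2 ∧ G.Adj a.1 a.2}.ncard : ℝ) ≤
      (1 - δ) * (D : ℝ) ^ 2) →
    (1 / 2 - δ / 2 ^ 22) * (D : ℝ) ≤ p →
    TotalLabeling G p (D + 2 * p - 1) := by
  classical
  obtain ⟨D₀, h⟩ := Pool.Agent.TH104.LS.sparse_main δ hδ hδ1
  refine ⟨D₀, ?_⟩
  intro V _ G D p h1 h2 h3 h4
  refine h V G D p h1 ?_ ?_ h4
  · intro v
    have := h2 v
    rwa [Set.ncard_eq_toFinset_card', ← SimpleGraph.neighborFinset_def,
      SimpleGraph.card_neighborFinset_eq_degree] at this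
  · intro v
    refine le_trans (le_of_eq ?_) (h3 v)
    rw [← Set.ncard_coe_finset]
    congr 2
    ext a
    simp [and_assoc]

end Pool.Agent.Results.MP_b8729f_co.LocallySparse
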