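import Pool.Agent.TH104.HY.I

/-!
# The Havet-Yu conjecture for triangle-free graphs and `p` a little more than `Δ / (2 log Δ)`

Proof.  The vertices are distributed at random into `2 m` types, `m` low ones and `m` high ones,
with `m` of order `log D`, such that every vertex has at most `w` neighbours in every type, where
`w` is close to `D / (2 m)`.  The graph inside a type is triangle-free of maximum degree at most
`w` and so has a colouring with `k = (1 + o(1)) w / log w` colours (counting argument of the
starting modules `Pool.Agent.H378R3.CountA`-`CountD`).  The vertices of the low types get the `m k`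
smallest labels, those of the high types the `m k` largest labels, and the edges between two given
types get labels in an interval of length `w + 1`; these intervals are placed by a modified Latin
square.
-/

set_option autoImplicit false

namespace Pool.Agent.Results.MP_b8729f_co.TriangleFree

/-- `TotalLabeling G p l`: the graph `G` has a `(p,1)`-total labeling of span `l`, that is, labels
`0, …, l` for the vertices (`fV`) and the edges (`fE`) such that adjacent vertices get different
labels, edges sharing an endpoint get different labels, and the labels of a vertex and of an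
incident edge differ by at least `p`. -/
def TotalLabeling {V : Type} (G : SimpleGraph V) (p l : ℕ) : Prop :=
  ∃ (fV : V → ℕ) (fE : Sym2 V → ℕ),
    (∀ v, fV v ≤ l) ∧ (∀ e ∈ G.edgeSet, fE e ≤ l) ∧
    (∀ u v, G.Adj u v → fV u ≠ fV v) ∧
    (∀ u v w, G.Adj u v → G.Adj u w → v ≠ w → fE s(u, v) ≠ fE s(u, w)) ∧
    (∀ u v, G.Adj u v → (p : ℤ) ≤ |(fV u : ℤ) - (fE s(u, v) : ℤ)|)

/-- For every `ε > 0` there is `D₀` such that for all `D ≥ D₀` and all
`p ≥ (1/2 + ε) D / log D`, every finite triangle-free graph with all degrees at most `D` has a
`(p,1)`-total labeling of span `D + 2 p - 1`. -/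
theorem result (ε : ℝ) (hε : 0 < ε) : ∃ D₀ : ℕ, ∀ (V : Type) [Fintype V]
    (G : SimpleGraph V) (D p : ℕ), D₀ ≤ D → (∀ v, (G.neighborSet v).ncard ≤ D) →
    G.CliqueFree 3 → (1 / 2 + ε) * (D / Real.log D) ≤ p →
    TotalLabeling G p (D + 2 * p - 1) := by
  classical
  obtain ⟨D₀, h⟩ := Pool.Agent.TH104.HY.tf_main ε hε
  refine ⟨D₀, ?_⟩
  intro V _ G D p h1 h2 h3 h4
  refine h V G D p h1 ?_ ?_ h4
  · intro v
    have := h2 v
    rwa [Set.ncard_eq_toFinset_card', ← SimpleGraph.neighborFinset_def,
      SimpleGraph.card_neighborFinset_eq_degree] at this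
  · intro a b c hab hac hbc
    exact h3 {a, b, c} (SimpleGraph.is3Clique_triple_iff.2 ⟨hab, hac, hbc⟩)

end Pool.Agent.Results.MP_b8729f_co.TriangleFree
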